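import Mathlib
import Pool.Agent.Helper4.QN.Defs
import Pool.Agent.Helper6.Helly.Cert

/-!
QN-10: a centred probability measure with an `L¹` lower bound.
-/

set_option autoImplicit false

namespace Pool.Agent.Helper90.QN

open scoped BigOperators RealInnerProductSpace
open Pool.Agent.Helper4.QN
open Pool.Agent.Helper6.Helly (sb sb_mul_self sb_not khintchine)

/-- Every vector of norm at most `1 / D` is a convex combination of the `v i`. -/
theorem mem_hull {d : ℕ} (hd : 0 < d) {I : Type} [Fintype I] (v : I → EuclideanSpace ℝ (Fin d))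
    (D : ℝ) (hD0 : 0 < D)
    (hD : ∀ x y : EuclideanSpace ℝ (Fin d), (∀ i, ⟪v i, x⟫ ≤ 1) → (∀ i, ⟪v i, y⟫ ≤ 1) →
      ‖x - y‖ ≤ D) (θ : EuclideanSpace ℝ (Fin d)) (hθ : ‖θ‖ ≤ 1 / D) :
    ∃ ν : I → ℝ, (∀ i, 0 ≤ ν i) ∧ ∑ i, ν i = 1 ∧ ∑ i, ν i • v i = θ := by
  classical
  have hD1 : ∀ x : EuclideanSpace ℝ (Fin d), (∀ i, ⟪v i, x⟫ ≤ 1) → ‖x‖ ≤ D := by
    intro x hx
    have := hD x 0 hx (fun i => by simp)
    simpa using this
  -- the linear map
  let L : (I → ℝ) →ₗ[ℝ] EuclideanSpace ℝ (Fin d) := Fintype.linearCombination ℝ v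
  have hL : ∀ ν : I → ℝ, L ν = ∑ i, ν i • v i := fun ν => by
    simp [L, Fintype.linearCombination_apply]
  let s : Set (EuclideanSpace ℝ (Fin d)) := L '' stdSimplex ℝ I
  have hsconv : Convex ℝ s := (convex_stdSimplex ℝ I).linear_image L
  have hscomp : IsCompact s :=
    (isCompact_stdSimplex ℝ I).image (LinearMap.continuous_of_finiteDimensional L)
  by_contra hno
  have hθs : θ ∉ s := by
    rintro ⟨ν, hν, h⟩
    exact hno ⟨ν, hν.1, hν.2, by rw [← hL]; exact h⟩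
  obtain ⟨f, u, hfu, huθ⟩ := geometric_hahn_banach_closed_point hsconv hscomp.isClosed hθs
  set y : EuclideanSpace ℝ (Fin d) := (InnerProductSpace.toDual ℝ _).symm f with hy
  have hfy : ∀ z, f z = ⟪y, z⟫ := fun z => by
    rw [hy, InnerProductSpace.toDual_symm_apply]
  have hvy : ∀ i, ⟪v i, y⟫ < u := by
    intro i
    have h1 : v i ∈ s := by
      refine ⟨Pi.single i 1, single_mem_stdSimplex ℝ i, ?_⟩
      rw [hL, Finset.sum_eq_single i]
      · simp
      · intro j _ hj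
        simp [hj]
      · intro h
        exact absurd (Finset.mem_univ i) h
    have h2 := hfu _ h1
    rw [hfy, real_inner_comm] at h2
    exact h2
  have hθy : u < ⟪θ, y⟫ := by
    rw [hfy, real_inner_comm] at huθ
    exact huθ
  -- a unit vector
  have hunit : ∃ e : EuclideanSpace ℝ (Fin d), ‖e‖ = 1 :=
    ⟨EuclideanSpace.single ⟨0, hd⟩ 1, by simp⟩
  obtain ⟨e, he⟩ := hunit
  rcases isEmpty_or_nonempty I with hI | hI
  · have h1 := hD1 ((D + 1) • e) (fun i => (hI.false i).elim)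
    rw [norm_smul, he, mul_one, Real.norm_of_nonneg (by linarith)] at h1
    linarith
  · obtain ⟨i0⟩ := hI
    rcases le_or_gt u 0 with hu | hu
    · have hy0 : y ≠ 0 := by
        intro h
        have := hvy i0
        rw [h, inner_zero_right] at this
        linarith
      have hyn : 0 < ‖y‖ := norm_pos_iff.2 hy0
      have h1 := hD1 (((D + 1) / ‖y‖) • y) (fun i => by
        rw [real_inner_smul_right]
        have h3 := hvy i
        have h4 : 0 < (D + 1) / ‖y‖ := by positivity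
        nlinarith)
      rw [norm_smul, Real.norm_of_nonneg (by positivity), div_mul_cancel₀ _ hyn.ne'] at h1
      linarith
    · have h1 := hD1 (u⁻¹ • y) (fun i => by
        rw [real_inner_smul_right, inv_mul_le_iff₀ hu, mul_one]
        exact (hvy i).le)
      rw [norm_smul, Real.norm_of_nonneg (by positivity), inv_mul_le_iff₀ hu] at h1
      have h2 : ⟪θ, y⟫ ≤ ‖θ‖ * ‖y‖ := real_inner_le_norm _ _
      have h3 : ‖θ‖ * ‖y‖ ≤ 1 / D * (u * D) :=
        mul_le_mul hθ h1 (norm_nonneg _) (by positivity)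
      have h4 : 1 / D * (u * D) = u := by field_simp
      linarith

/-- QN-10 (centred measure). -/
theorem centred {d : ℕ} (hd : 0 < d) {I : Type} [Fintype I] (v : I → EuclideanSpace ℝ (Fin d))
    (D : ℝ)
    (hD : ∀ x y : EuclideanSpace ℝ (Fin d), (∀ i, ⟪v i, x⟫ ≤ 1) → (∀ i, ⟪v i, y⟫ ≤ 1) →
      ‖x - y‖ ≤ D) :
    0 < D ∧ ∃ ν : I → ℝ, (∀ i, 0 ≤ ν i) ∧ ∑ i, ν i = 1 ∧ ∑ i, ν i • v i = 0 ∧
      ∀ y : EuclideanSpace ℝ (Fin d), ‖y‖ ≤ 2 * D * √d * ∑ i, ν i * |⟪v i, y⟫| := by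
  classical
  have hd' : (0 : ℝ) < d := by exact_mod_cast hd
  have hsd : 0 < √(d : ℝ) := Real.sqrt_pos.2 hd'
  have hD0 : 0 < D := by
    set c : ℝ := 1 + ∑ i, ‖v i‖ with hc
    have hc1 : 1 ≤ c := by
      have : 0 ≤ ∑ i, ‖v i‖ := Finset.sum_nonneg fun i _ => norm_nonneg _
      linarith
    have hc0 : 0 < c := by linarith
    have hvc : ∀ i, ‖v i‖ ≤ c := fun i => by
      have := Finset.single_le_sum (f := fun i => ‖v i‖) (fun j _ => norm_nonneg (v j))
        (Finset.mem_univ i)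
      linarith
    set e : EuclideanSpace ℝ (Fin d) := EuclideanSpace.single ⟨0, hd⟩ 1 with he
    have hen : ‖e‖ = 1 := by simp [he]
    have hx1 : ∀ i, ⟪v i, c⁻¹ • e⟫ ≤ 1 := fun i => by
      rw [real_inner_smul_right, inv_mul_le_iff₀ hc0, mul_one]
      calc ⟪v i, e⟫ ≤ ‖v i‖ * ‖e‖ := real_inner_le_norm _ _
        _ ≤ c := by rw [hen, mul_one]; exact hvc i
    have hx2 : ∀ i, ⟪v i, (0 : EuclideanSpace ℝ (Fin d))⟫ ≤ 1 := fun i => by
      rw [inner_zero_right]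
      exact zero_le_one
    have h1 := hD (c⁻¹ • e) 0 hx1 hx2
    have hci : 0 < c⁻¹ := inv_pos.2 hc0
    rw [sub_zero, norm_smul, hen, mul_one, Real.norm_of_nonneg hci.le] at h1
    exact lt_of_lt_of_le hci h1
  refine ⟨hD0, ?_⟩
  set k : ℝ := 1 / (D * √d) with hk
  have hk0 : 0 < k := by positivity
  let θ : (Fin d → Bool) → EuclideanSpace ℝ (Fin d) := fun σ =>
    WithLp.toLp 2 (fun j => k * sb (σ j))
  have hθa : ∀ σ j, (θ σ).ofLp j = k * sb (σ j) := fun σ j => rfl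
  have hsb1 : ∀ b, sb b ^ 2 = 1 := fun b => by rw [pow_two, sb_mul_self]
  have hθn : ∀ σ, ‖θ σ‖ ≤ 1 / D := by
    intro σ
    rw [EuclideanSpace.norm_eq]
    have h1 : ∑ j, ‖(θ σ).ofLp j‖ ^ 2 = d * k ^ 2 := by
      have : ∀ j, ‖(θ σ).ofLp j‖ ^ 2 = k ^ 2 := fun j => by
        rw [hθa, Real.norm_eq_abs, sq_abs, mul_pow, hsb1, mul_one]
      rw [Finset.sum_congr rfl fun j _ => this j]
      simp
    rw [h1]
    have h2 : (d : ℝ) * k ^ 2 = (1 / D) ^ 2 := by
      rw [hk, div_pow, mul_pow, Real.sq_sqrt hd'.le]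
      field_simp
    rw [h2, Real.sqrt_sq (by positivity)]
  choose ν hν0 hν1 hνv using fun σ => mem_hull hd v D hD0 hD (θ σ) (hθn σ)
  have h2d : (0 : ℝ) < 2 ^ d := by positivity
  have hcard : ∑ _σ : Fin d → Bool, (1 : ℝ) = 2 ^ d := by simp
  refine ⟨fun i => (2 ^ d)⁻¹ * ∑ σ, ν σ i, fun i => ?_, ?_, ?_, ?_⟩
  · exact mul_nonneg (by positivity) (Finset.sum_nonneg fun σ _ => hν0 σ i)
  · rw [← Finset.mul_sum, Finset.sum_comm]
    rw [Finset.sum_congr rfl fun σ _ => hν1 σ, hcard]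
    exact inv_mul_cancel₀ h2d.ne'
  · have h1 : ∑ i, ((2 ^ d)⁻¹ * ∑ σ, ν σ i) • v i = ((2 : ℝ) ^ d)⁻¹ • ∑ σ, θ σ := by
      have h3 : ∀ i, ((2 ^ d)⁻¹ * ∑ σ, ν σ i) • v i =
          ((2 : ℝ) ^ d)⁻¹ • ∑ σ, ν σ i • v i := fun i => by
        rw [mul_smul, Finset.sum_smul]
      rw [Finset.sum_congr rfl fun i _ => h3 i, ← Finset.smul_sum, Finset.sum_comm]
      congr 1
      exact Finset.sum_congr rfl fun σ _ => hνv σ
    rw [h1]
    have h2 : ∑ σ, θ σ = 0 := by
      have h4 : ∑ σ : Fin d → Bool, θ σ = ∑ σ : Fin d → Bool, - θ σ := by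
        refine Fintype.sum_equiv (Equiv.piCongrRight fun _ => Equiv.boolNot) _ _ fun σ => ?_
        ext j
        simp only [PiLp.neg_apply]
        rw [hθa, hθa]
        simp only [Equiv.piCongrRight_apply, Pi.map_apply, Equiv.boolNot_apply]
        rw [sb_not]
        ring
      rw [Finset.sum_neg_distrib] at h4
      have h5 : (2 : ℝ) • ∑ σ : Fin d → Bool, θ σ = 0 := by
        rw [two_smul]
        nth_rewrite 1 [h4]
        exact neg_add_cancel _
      exact (smul_eq_zero.1 h5).resolve_left two_ne_zero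
    rw [h2, smul_zero]
  · intro y
    have h1 : ∀ σ, |⟪θ σ, y⟫| ≤ ∑ i, ν σ i * |⟪v i, y⟫| := by
      intro σ
      rw [← hνv σ, sum_inner]
      refine (Finset.abs_sum_le_sum_abs _ _).trans (le_of_eq ?_)
      refine Finset.sum_congr rfl fun i _ => ?_
      rw [real_inner_smul_left, abs_mul, abs_of_nonneg (hν0 σ i)]
    have h2 : ∀ σ, |⟪θ σ, y⟫| = k * |∑ j, sb (σ j) * y.ofLp j| := by
      intro σ
      have h3 : ⟪θ σ, y⟫ = k * ∑ j, sb (σ j) * y.ofLp j := by
        rw [PiLp.inner_apply, Finset.mul_sum]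
        refine Finset.sum_congr rfl fun j _ => ?_
        change ⟪(θ σ).ofLp j, y.ofLp j⟫ = _
        rw [hθa]
        simp only [RCLike.inner_apply, conj_trivial]
        ring
      rw [h3, abs_mul, abs_of_pos hk0]
    have h3 := khintchine (fun j => y.ofLp j)
    have h4 : √(∑ j, y.ofLp j ^ 2) = ‖y‖ := by
      rw [EuclideanSpace.norm_eq]
      congr 1
      exact Finset.sum_congr rfl fun j _ => by rw [Real.norm_eq_abs, sq_abs]
    rw [h4] at h3
    have h5 : ∑ i, (2 ^ d)⁻¹ * (∑ σ, ν σ i) * |⟪v i, y⟫| =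
        (2 ^ d)⁻¹ * ∑ σ, ∑ i, ν σ i * |⟪v i, y⟫| := by
      rw [Finset.sum_comm, Finset.mul_sum]
      refine Finset.sum_congr rfl fun i _ => ?_
      rw [← Finset.sum_mul]
      ring
    rw [h5]
    have h6 : k * (2 ^ d * (1 / 2 * ‖y‖)) ≤ ∑ σ, ∑ i, ν σ i * |⟪v i, y⟫| := by
      calc k * (2 ^ d * (1 / 2 * ‖y‖)) ≤ k * ∑ σ : Fin d → Bool, |∑ j, sb (σ j) * y.ofLp j| :=
            mul_le_mul_of_nonneg_left h3 hk0.le
        _ = ∑ σ, |⟪θ σ, y⟫| := by
            rw [Finset.mul_sum]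
            exact Finset.sum_congr rfl fun σ _ => (h2 σ).symm
        _ ≤ _ := Finset.sum_le_sum fun σ _ => h1 σ
    calc ‖y‖ = 2 * D * √d * ((2 ^ d)⁻¹ * (k * (2 ^ d * (1 / 2 * ‖y‖)))) := by
          rw [hk]
          field_simp
      _ ≤ _ := by
          apply mul_le_mul_of_nonneg_left _ (by positivity)
          exact mul_le_mul_of_nonneg_left h6 (by positivity)

end Pool.Agent.Helper90.QN
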